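import Pool.Agent.Work.MP_47f029_co.Twin

set_option autoImplicit false

namespace Pool.Agent.Results.MP_47f029_co.NonpartitionableBalls

open Pool.Agent.Work.MP_47f029_co

/-- For every `d ≥ 3` there is a finite abstract simplicial complex, on the vertex set
`Fin (d + 18)`, with exactly `54` facets, all of them with `d + 1` vertices, whose geometric
realization is homeomorphic to the closed unit ball of `ℝ^d`, and which is not partitionable. -/
theorem result (d : ℕ) (hd : 3 ≤ d) :
    ∃ Δ : Set (Finset (Fin (d + 18))), IsComplex Δ ∧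
      (∀ F, IsFacet Δ F → F.card = d + 1) ∧
      {F | IsFacet Δ F}.ncard = 54 ∧
      Nonempty (realization Δ ≃ₜ Metric.closedBall (0 : EuclideanSpace ℝ (Fin d)) 1) ∧
      ¬ Partitionable Δ := by
  obtain ⟨k, rfl⟩ := Nat.exists_eq_add_of_le hd
  have e : 3 + k + 18 = 21 + k := by omega
  rw [e]
  exact all_dims k

end Pool.Agent.Results.MP_47f029_co.NonpartitionableBalls
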